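import Mathlib
import Pool.Agent.H16.S3A

set_option autoImplicit false

namespace Pool.Agent.Results.MP_3e0647_al.Counter
open Filter Topology Pool.Agent.H16.S3 HahnSeries

instance : Fact (∀ r : ZMod 2, r ^ 2 ≠ 1 + 1 * r) := ⟨by decide⟩

abbrev F := QuadraticAlgebra (ZMod 2) 1 1
abbrev L := HahnSeries ℤ F
instance : Finite F := Finite.of_equiv _ (QuadraticAlgebra.equivProd (1 : ZMod 2) 1).symm

open Classical in
noncomputable def nm (x : L) : ℝ := if x = 0 then 0 else 2 ^ (-x.order)

theorem nm_le (x : L) (n : ℤ) : nm x ≤ 2 ^ (-n) ↔ ∀ i < n, x.coeff i = 0 := by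
  unfold nm
  split_ifs with h
  · simp [h, zpow_nonneg]
  · rw [zpow_le_zpow_iff_right₀ one_lt_two, neg_le_neg_iff, le_order_iff_forall h]

theorem nm_nonneg (x : L) : 0 ≤ nm x := by unfold nm; split_ifs <;> positivity

noncomputable def av : AbsoluteValue L ℝ where
  toFun := nm
  map_mul' x y := by
    by_cases hx : x = 0
    · simp [nm, hx]
    by_cases hy : y = 0
    · simp [nm, hy]
    simp only [nm, hx, hy, mul_eq_zero, or_self, if_false, order_mul hx hy, neg_add]
    rw [zpow_add₀ two_ne_zero]
  nonneg' := nm_nonneg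
  eq_zero' x := by
    unfold nm
    split_ifs with h
    · simp [h]
    · simp [h, zpow_ne_zero]
  add_le' x y := by
    by_cases hx : x = 0
    · subst hx; rw [zero_add]; linarith [nm_nonneg 0]
    by_cases hy : y = 0
    · subst hy; rw [add_zero]; linarith [nm_nonneg 0]
    have h : nm (x + y) ≤ 2 ^ (-min x.order y.order) := (nm_le _ _).2 fun i hi => by
      rw [coeff_add, coeff_eq_zero_of_lt_order (hi.trans_le (min_le_left _ _)),
        coeff_eq_zero_of_lt_order (hi.trans_le (min_le_right _ _)), add_zero]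
    have a := nm_nonneg x
    have b := nm_nonneg y
    rcases min_choice x.order y.order with e | e <;> rw [e] at h
    · have : nm x = 2 ^ (-x.order) := if_neg hx
      linarith
    · have : nm y = 2 ^ (-y.order) := if_neg hy
      linarith

/-- The field of Laurent series over the field with four elements. -/
def K : Type := L
noncomputable instance : NormedField K := av.toNormedField
theorem norm_eq (x : K) : ‖x‖ = nm x := rfl

noncomputable def ser (n : ℤ) (c : ℤ → F) : L :=
  ofSuppBddBelow (fun i => if i < n then 0 else c i)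
    ⟨n, fun i hi => by by_contra h; exact hi (if_pos (not_le.1 h))⟩

noncomputable def serK (n : ℤ) (c : ℤ → F) : K := ser n c

theorem small (e : ℝ) (he : 0 < e) : ∃ k : ℕ, (2 : ℝ) ^ (-(k : ℤ)) < e := by
  obtain ⟨k, hk⟩ := exists_pow_lt_of_lt_one he (show (2 : ℝ)⁻¹ < 1 by norm_num)
  exact ⟨k, by rwa [zpow_neg, zpow_natCast, ← inv_pow]⟩

theorem cpt (n : ℤ) : IsCompact {x : K | ‖x‖ ≤ 2 ^ (-n)} := by
  letI : TopologicalSpace F := ⊥
  haveI : DiscreteTopology F := ⟨rfl⟩
  have hc : Continuous (serK n) := by
    rw [Metric.continuous_iff']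
    intro c e he
    obtain ⟨k, hk⟩ := small e he
    have : ∀ᶠ d in 𝓝 c, ∀ i ∈ Finset.Ico n k, d i = c i :=
      (Finset.eventually_all _).2 fun i _ =>
        ((continuous_apply (A := fun _ : ℤ => F) i).tendsto c).eventually (p := fun z => z = c i)
          ((isOpen_discrete ({c i} : Set F)).mem_nhds rfl)
    filter_upwards [this] with d hd
    rw [dist_eq_norm, norm_eq]
    refine ((nm_le (ser n d - ser n c) k).2 fun i hi => ?_).trans_lt hk
    by_cases h : i < n
    · simp [ser, h]
    · simp [ser, h, hd i (Finset.mem_Ico.2 ⟨not_lt.1 h, hi⟩)]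
  have e : {x : K | ‖x‖ ≤ 2 ^ (-n)} = Set.range (serK n) := ?_
  · rw [e]; exact isCompact_range hc
  ext x
  constructor
  · intro hx
    refine ⟨fun i => HahnSeries.coeff x i, ?_⟩
    refine HahnSeries.ext (funext fun i => ?_)
    by_cases h : i < n
    · simp [serK, ser, h, (nm_le x n).1 hx i h]
    · simp [serK, ser, h]
  · rintro ⟨c, rfl⟩
    exact (nm_le (ser n c) n).2 fun i hi => by simp [ser, hi]

instance : ProperSpace K := ⟨fun x r => by
  obtain ⟨n, hn⟩ := pow_unbounded_of_one_lt (‖x‖ + r) (one_lt_two (α := ℝ))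
  refine (cpt (-n)).of_isClosed_subset Metric.isClosed_closedBall fun y hy => ?_
  have := norm_le_norm_add_const_of_dist_le (Metric.mem_closedBall.1 hy)
  simp only [Set.mem_setOf_eq, neg_neg, zpow_natCast]
  linarith⟩

noncomputable def sg : L →+* L where
  toFun x := x.map (starRingEnd F)
  map_one' := HahnSeries.map_one (starRingEnd F).toMonoidWithZeroHom
  map_mul' _ _ := HahnSeries.map_mul (starRingEnd F).toNonUnitalRingHom
  map_zero' := by ext1; ext1; simp
  map_add' _ _ := by ext1; ext1; simp

theorem sg_coeff (x : L) (i : ℤ) : (sg x).coeff i = star (x.coeff i) := rfl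
theorem sg_sg (x : L) : sg (sg x) = x := by ext1; ext1; simp [sg_coeff]

theorem sg_le (x : L) : nm (sg x) ≤ nm x := by
  by_cases hx : x = 0
  · simp [hx]
  · rw [show nm x = 2 ^ (-x.order) from if_neg hx, nm_le]
    intro i hi
    rw [sg_coeff, coeff_eq_zero_of_lt_order hi, star_zero]

noncomputable def D (x : L) : L :=
  ⟨fun i => (i : F) * x.coeff i, x.isPWO_support.mono fun i hi h => hi (by simp [h])⟩

theorem D_coeff (x : L) (i : ℤ) : (D x).coeff i = (i : F) * x.coeff i := rfl
theorem D_supp (x : L) : (D x).support ⊆ x.support := fun i hi h => hi (by simp [D_coeff, h])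

theorem leib (x y : L) : D (x * y) = D x * y + x * D y := by
  ext1; ext1 n
  rw [coeff_add, coeff_mul_left' x.isPWO_support (D_supp x),
    coeff_mul_right' y.isPWO_support (D_supp y), D_coeff, coeff_mul, Finset.mul_sum,
    ← Finset.sum_add_distrib]
  refine Finset.sum_congr rfl fun p hp => ?_
  rw [← (Finset.mem_antidiagonal.1 hp).2.2, D_coeff, D_coeff]
  push_cast; ring

theorem D_sg (x : L) : D (sg x) = sg (D x) := by
  ext1; ext1; simp [D_coeff, sg_coeff, mul_comm]

noncomputable def ps (x : L) : L := D x / x + sg (D x / x)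

theorem ps_mul (x y : L) (hx : x ≠ 0) (hy : y ≠ 0) : ps (x * y) = ps x + ps y := by
  have : D (x * y) / (x * y) = D x / x + D y / y := by rw [leib]; field_simp
  rw [ps, this, map_add, ps, ps]; ring

theorem ps_sg (x : L) : ps (sg x) = ps x := by
  rw [ps, D_sg, ← map_div₀, sg_sg, add_comm, ps]

def om : F := ⟨0, 1⟩
noncomputable def uu (c : F) (n : ℕ) : L := 1 + single (2 * (n : ℤ) + 1) c

theorem uu0 (c : F) (n : ℕ) : (uu c n).coeff 0 ≠ 0 := by
  rw [uu, coeff_add, coeff_single_of_ne (by omega)]; simp

theorem uu_ne (c : F) (n : ℕ) : uu c n ≠ 0 := ne_zero_of_coeff_ne_zero (uu0 c n)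

theorem uu_ord (c : F) (n : ℕ) : (uu c n).order = 0 :=
  le_antisymm (order_le_of_coeff_ne_zero (uu0 c n)) ((le_order_iff_forall (uu_ne c n)).2
    fun j hj => by rw [uu, coeff_add, coeff_single_of_ne (by omega)]; simp [hj.ne])

theorem uu_le (n k : ℕ) (h : k ≤ n) : nm (uu om n - 1) ≤ 2 ^ (-(k : ℤ)) :=
  (nm_le (uu om n - 1) k).2 fun i hi => by
    rw [uu, add_sub_cancel_left, coeff_single_of_ne (by omega)]

theorem two : (2 : F) = 0 := by decide

theorem ps_uu (n : ℕ) :
    ps (uu om n) * (uu om n * uu (star om) n) = single (2 * (n : ℤ) + 1) 1 := by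
  have h1 : D (uu om n) = single (2 * (n : ℤ) + 1) om := by
    ext1; ext1 i
    rw [D_coeff, uu, coeff_add]
    by_cases h : i = 2 * (n : ℤ) + 1
    · subst h
      have : (2 * (n : ℤ) + 1) ≠ 0 := by omega
      simp [this, two]
    · rw [coeff_single_of_ne h]
      by_cases h0 : i = 0 <;> simp [h0]
  have h2 : ∀ c, sg (single (2 * (n : ℤ) + 1) c) = single (2 * (n : ℤ) + 1) (star c) := fun c => by
    ext1; ext1 i
    rw [sg_coeff]
    by_cases h : i = 2 * (n : ℤ) + 1 <;> simp [h, coeff_single_of_ne]
  have h3 : sg (uu om n) = uu (star om) n := by rw [uu, map_add, map_one, h2, uu]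
  have h4 : (single (2 * (n : ℤ) + 1) om : L) + single (2 * (n : ℤ) + 1) (star om) =
      single (2 * (n : ℤ) + 1) 1 := by rw [← single_add]; congr 1
  have h5 : (2 : L) = 0 := by
    rw [← map_ofNat (HahnSeries.C : F →+* L) 2, two, map_zero]
  have a := uu_ne om n
  have b := uu_ne (star om) n
  rw [ps, h1, map_div₀, h2, h3, ← h4]
  field_simp
  simp only [uu]
  linear_combination (single (2 * (n : ℤ) + 1) om * single (2 * (n : ℤ) + 1) (star om) : L) * h5

theorem li : LinearIndependent F fun n : ℕ => ps (uu om n) := by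
  have h0 : ∀ n, ps (uu om n) ≠ 0 := fun n h => by
    have := ps_uu n
    rw [h, zero_mul] at this
    exact single_ne_zero one_ne_zero this.symm
  have h1 : ∀ n : ℕ, (ps (uu om n)).order = 2 * (n : ℤ) + 1 := fun n => by
    have := congrArg order (ps_uu n)
    rwa [order_mul (h0 n) (mul_ne_zero (uu_ne _ _) (uu_ne _ _)), order_mul (uu_ne _ _) (uu_ne _ _),
      uu_ord, uu_ord, add_zero, add_zero, order_single one_ne_zero] at this
  rw [linearIndependent_iff']
  intro s g h i
  induction i using Nat.strong_induction_on with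
  | _ i ih =>
  intro hi
  have := congrArg (fun x : L => x.coeff (2 * (i : ℤ) + 1)) h
  simp only [coeff_sum, coeff_smul, coeff_zero, smul_eq_mul] at this
  rw [Finset.sum_eq_single i (fun j hj hne => ?_) (fun h => absurd hi h)] at this
  · refine (mul_eq_zero.1 this).resolve_right ?_
    rw [← h1 i, coeff_order_eq_zero]; exact h0 i
  · rcases lt_or_gt_of_ne hne with h | h
    · rw [ih j h hj, zero_mul]
    · rw [coeff_eq_zero_of_lt_order (by rw [h1]; omega), mul_zero]

theorem exl : ∃ l : L →ₗ[F] F, ∀ n, l (ps (uu om n)) = 1 := by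
  obtain ⟨l, hl⟩ := LinearMap.exists_extend ((Module.Basis.span li).constr F fun _ => (1 : F))
  refine ⟨l, fun n => ?_⟩
  have := LinearMap.congr_fun hl (Module.Basis.span li n)
  rwa [Module.Basis.constr_basis, LinearMap.comp_apply, Submodule.subtype_apply,
    Module.Basis.coe_span_apply] at this

/-- There is a group of homeomorphisms of a compact Hausdorff space, sharply transitive on triples
of distinct points, that carries no topology making all orbit maps to the space of triples
homeomorphisms. -/
theorem result : ∃ (M : Type) (_ : TopologicalSpace M) (G : Subgroup (Equiv.Perm M)),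
    CompactSpace M ∧ T2Space M ∧ (∀ g ∈ G, Continuous g) ∧
    (∀ s t : Tri M, ∃! g : G, act g.1 s = t) ∧
    ¬ ∃ _ : TopologicalSpace G, ∀ t : Tri M, IsHomeomorph fun g : G => act g.1 t := by
  classical
  obtain ⟨l, hl⟩ := exl
  obtain ⟨G, h⟩ := abst (K := K) sg sg_sg
    (AddMonoidHomClass.continuous_of_bound (show K →+* K from sg) 1 fun x => by
      rw [one_mul]; exact sg_le x)
    (fun x => (l (ps x)).re) (fun a b ha hb => by
      have := ps_mul a b ha hb
      exact (congrArg (fun x => (l x).re) this).trans (by simp))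
    (fun a => congrArg (fun x => (l x).re) (ps_sg a)) (uu om) (uu_ne om)
    (fun n => by simp only [hl]; rfl) (by
      rw [Metric.tendsto_atTop]
      intro e he
      obtain ⟨k, hk⟩ := small e he
      refine ⟨k, fun n hn => ?_⟩
      rw [dist_eq_norm, norm_eq]
      exact (uu_le n k hn).trans_lt hk)
    (single 0 om : L) (fun h => by
      have := congrArg (fun x : L => x.coeff 0) h
      simp only [coeff_single_same] at this
      have h2 : star ((single (0 : ℤ) om : L).coeff 0) = om := this
      rw [coeff_single_same] at h2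
      revert h2; decide)
  exact ⟨OnePoint K, inferInstance, G, inferInstance, inferInstance, h⟩

end Pool.Agent.Results.MP_3e0647_al.Counter
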